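import Mathlib
import Pool.Prelude.Def_F_c31e40fa
import Pool.Agent.X151.MH.Dyn

/-!
# Harnack's inequality for the area of the filled Julia sets, and the distance to hyperbolicity

Let `A(c)` be the area of the filled Julia set of `z ^ n + c`. For all `c` in the Multibrot set and
all `c'` the distance `d` of `c` to the parameters with an attracting cycle satisfies
`d |A(c) - A(c')| ≤ |c - c'| (A(c) + A(c'))`. The same holds for the moments
`∫ |p|²` of the filled Julia sets, for every polynomial `p` of degree at most `n - 2`, and with the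
distance to the complement of the Multibrot set.
-/

set_option autoImplicit false

open Filter Topology Metric MeasureTheory Polynomial

namespace Pool.Agent.Results.MP_af9036_an.AreaHarnack

/-- The map `z ↦ z ^ n + c`. -/
def f (n : ℕ) (c : ℂ) : ℂ → ℂ := fun z => z ^ n + c

/-- The parameters `c` for which `z ^ n + c` has an attracting cycle. -/
def hyp (n : ℕ) : Set ℂ := {c | ∃ m z, N62a1eb23.IsAttractingCycle (f n c) m z}

/-- The filled Julia set. -/
def K (n : ℕ) (c : ℂ) : Set ℂ :=
  {x | ¬ Tendsto (fun k => (f n c)^[k] x) atTop (Bornology.cobounded ℂ)}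

/-- The moment `∫ |p|²` of the filled Julia set. For `p = 1` it is the area. -/
noncomputable def moment (n : ℕ) (p : ℂ[X]) (c : ℂ) : ℝ := ∫ z in K n c, ‖p.eval z‖ ^ 2

theorem of_ball {n : ℕ} (hn : 2 ≤ n) {p : ℂ[X]} (hp : p.natDegree + 2 ≤ n) {c : ℂ} {r : ℝ}
    (hsub : ball c r ⊆ N62a1eb23.multibrotSet n) (c' : ℂ) :
    r * |moment n p c - moment n p c'| ≤ ‖c - c'‖ * (moment n p c + moment n p c') := by
  have h1 : 0 ≤ moment n p c := Pool.Agent.X151.MH.Mo_nonneg n p c
  have h2 : 0 ≤ moment n p c' := Pool.Agent.X151.MH.Mo_nonneg n p c'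
  by_cases hc' : c' ∈ ball c r
  · exact Pool.Agent.X151.MH.ball_disc hn hp (pos_of_mem_ball hc') hsub hc'
  · rw [mem_ball_iff_norm, not_lt, norm_sub_rev] at hc'
    have h3 : |moment n p c - moment n p c'| ≤ moment n p c + moment n p c' := by
      rw [abs_le]
      constructor <;> linarith
    exact mul_le_mul hc' h3 (abs_nonneg _) (norm_nonneg _)

theorem ball_sub {n : ℕ} (hn : 2 ≤ n) {c : ℂ} (hc : c ∈ N62a1eb23.multibrotSet n) :
    ball c (infDist c (hyp n)) ⊆ N62a1eb23.multibrotSet n := by
  rcases (infDist_nonneg (x := c) (s := hyp n)).eq_or_lt with h0 | h0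
  · rw [← h0, ball_zero]
    exact Set.empty_subset _
  · refine Pool.Agent.H713R2.AR.ball_subset hn h0 hc ?_
    intro t ht hcyc
    have h1 : infDist c (hyp n) ≤ dist c t := infDist_le_dist_of_mem hcyc
    rw [mem_ball, dist_comm] at ht
    linarith

theorem zero_mem_hyp {n : ℕ} (hn : 2 ≤ n) : (0 : ℂ) ∈ hyp n := by
  have hfix : f n 0 0 = 0 := by
    simp only [f]
    rw [zero_pow (by omega), add_zero]
  have hder : HasDerivAt (f n 0) 0 0 := by
    have h2 := (hasDerivAt_pow n (0 : ℂ)).add_const 0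
    rw [zero_pow (by omega : n - 1 ≠ 0), mul_zero] at h2
    exact h2
  refine ⟨1, 0, one_pos, hfix, ?_, ?_⟩
  · rw [Function.iterate_one]
    exact hder.differentiableAt
  · rw [Function.iterate_one, hder.deriv, norm_zero]
    exact one_pos

theorem result (n : ℕ) (hn : 2 ≤ n) :
    -- (1) Harnack's inequality along holomorphic discs in the Multibrot set
    (∀ p : ℂ[X], p.natDegree + 2 ≤ n → ∀ γ : ℂ → ℂ, DifferentiableOn ℂ γ (ball 0 1) →
      (∀ t ∈ ball (0 : ℂ) 1, γ t ∈ N62a1eb23.multibrotSet n) → ∀ t ∈ ball (0 : ℂ) 1,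
        (1 - ‖t‖) * moment n p (γ 0) ≤ (1 + ‖t‖) * moment n p (γ t)) ∧
    -- (2) the distance to the parameters with an attracting cycle
    (∀ p : ℂ[X], p.natDegree + 2 ≤ n → ∀ c ∈ N62a1eb23.multibrotSet n, ∀ c' : ℂ,
      infDist c (hyp n) * |moment n p c - moment n p c'| ≤
        ‖c - c'‖ * (moment n p c + moment n p c')) ∧
    -- (3) the distance to the complement of the Multibrot set
    (∀ p : ℂ[X], p.natDegree + 2 ≤ n → ∀ c ∈ N62a1eb23.multibrotSet n, ∀ c' : ℂ,
      infDist c (N62a1eb23.multibrotSet n)ᶜ * |moment n p c - moment n p c'| ≤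
        ‖c - c'‖ * (moment n p c + moment n p c')) ∧
    -- (4) a criterion for the density of hyperbolicity at `c`: the area is not Lipschitz at `c`
    (∀ c ∈ N62a1eb23.multibrotSet n,
      (∀ L : ℝ, ∃ᶠ c' in 𝓝 c, L * ‖c' - c‖ <
        |(volume (K n c')).toReal - (volume (K n c)).toReal|) → c ∈ closure (hyp n)) := by
  have h2 : ∀ p : ℂ[X], p.natDegree + 2 ≤ n → ∀ c ∈ N62a1eb23.multibrotSet n, ∀ c' : ℂ,
      infDist c (hyp n) * |moment n p c - moment n p c'| ≤
        ‖c - c'‖ * (moment n p c + moment n p c') := fun p hp c hc c' =>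
    of_ball hn hp (ball_sub hn hc) c'
  refine ⟨fun p hp γ hγ hγM t ht => Pool.Agent.X151.MH.disc hn hp hγ hγM ht, h2, ?_, ?_⟩
  · intro p hp c _ c'
    refine of_ball hn hp ?_ c'
    intro x hx
    by_contra hcon
    have h3 : infDist c (N62a1eb23.multibrotSet n)ᶜ ≤ dist c x := infDist_le_dist_of_mem hcon
    rw [mem_ball, dist_comm] at hx
    linarith
  · intro c hc hL
    have hne : (hyp n).Nonempty := ⟨0, zero_mem_hyp hn⟩
    rw [mem_closure_iff_infDist_zero hne]
    by_contra hcon
    have hpos : 0 < infDist c (hyp n) := lt_of_le_of_ne infDist_nonneg (Ne.symm hcon)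
    set d := infDist c (hyp n) with hd
    have harea : ∀ x : ℂ, (volume (K n x)).toReal = moment n 1 x := by
      intro x
      unfold moment
      simp [Measure.real]
    obtain ⟨c', h3, h4⟩ := ((hL (4 * moment n 1 c / d)).and_eventually
      (ball_mem_nhds c (half_pos hpos))).exists
    rw [harea, harea] at h3
    have h5 := h2 1 (by simpa using hn) c hc c'
    rw [dist_eq_norm] at h4
    have hA : 0 ≤ moment n 1 c := Pool.Agent.X151.MH.Mo_nonneg n 1 c
    have hB : 0 ≤ moment n 1 c' := Pool.Agent.X151.MH.Mo_nonneg n 1 c'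
    rw [norm_sub_rev c c', abs_sub_comm] at h5
    set A := moment n 1 c
    set B := moment n 1 c'
    set δ := ‖c' - c‖ with hδ
    have hδ0 : 0 ≤ δ := norm_nonneg _
    have h6 : d * (B - A) ≤ δ * (A + B) :=
      (mul_le_mul_of_nonneg_left (le_abs_self _) hpos.le).trans h5
    have h7 : B ≤ 3 * A := by
      by_contra hcon2
      rw [not_le] at hcon2
      nlinarith [mul_nonneg hδ0 (add_nonneg hA hB), mul_pos hpos (sub_pos.mpr hcon2)]
    have h8 : d * |B - A| ≤ 4 * A * δ := by nlinarith
    have h9 : d * (4 * A / d * δ) = 4 * A * δ := by field_simp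
    have h10 := mul_lt_mul_of_pos_left h3 hpos
    rw [h9] at h10
    linarith

end Pool.Agent.Results.MP_af9036_an.AreaHarnack
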