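import Mathlib
import Pool.Prelude.Def_F_c31e40fa
import Pool.Agent.X151.MB.Bloch

/-!
# The distance to hyperbolicity and the second derivative of the velocity of the escaping points

Let `V(z) = - ∑_{k ≥ 1} 1 / (f_c^k)'(z)` be the velocity of the escaping point `z` of `z ^ n + c`
(with a fixed Böttcher coordinate, with respect to `c`), and `K` the filled Julia set. For every `c`
in the Multibrot set and every escaping point `z`, the distance `d` of `c` to the parameters with an
attracting cycle satisfies `d * dist(z, K) * |V''(z)| ≤ 4`.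
-/

set_option autoImplicit false

open Filter Topology Metric MeasureTheory

namespace Pool.Agent.Results.MP_af9036_an.BersNorm

/-- The map `z ↦ z ^ n + c`. -/
def f (n : ℕ) (c : ℂ) : ℂ → ℂ := fun z => z ^ n + c

/-- The parameters `c` for which `z ^ n + c` has an attracting cycle. -/
def hyp (n : ℕ) : Set ℂ := {c | ∃ m z, N62a1eb23.IsAttractingCycle (f n c) m z}

/-- The filled Julia set. -/
def K (n : ℕ) (c : ℂ) : Set ℂ :=
  {x | ¬ Tendsto (fun k => (f n c)^[k] x) atTop (Bornology.cobounded ℂ)}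

/-- The velocity of the escaping points. The term of order `0` of the sum is `1`, so that this is
`- ∑_{k ≥ 1} 1 / (f_c^k)'(z)`. -/
noncomputable def V (n : ℕ) (c z : ℂ) : ℂ := 1 - ∑' k : ℕ, (deriv (f n c)^[k] z)⁻¹

theorem V_eq (n : ℕ) (c : ℂ) : V n c = Pool.Agent.X151.MU.V n c := by
  funext z
  have hP : ∀ k, deriv (f n c)^[k] z = Pool.Agent.W746.LD.P n c z k := fun k =>
    (Pool.Agent.W746.LD.hasDerivAt_orb z k).deriv
  unfold V Pool.Agent.X151.MU.V
  simp only [hP]

theorem ball_sub {n : ℕ} (hn : 2 ≤ n) {c : ℂ} (hc : c ∈ N62a1eb23.multibrotSet n) :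
    ball c (infDist c (hyp n)) ⊆ N62a1eb23.multibrotSet n := by
  rcases (infDist_nonneg (x := c) (s := hyp n)).eq_or_lt with h0 | h0
  · rw [← h0, ball_zero]
    exact Set.empty_subset _
  · refine Pool.Agent.H713R2.AR.ball_subset hn h0 hc ?_
    intro t ht hcyc
    have h1 : infDist c (hyp n) ≤ dist c t := infDist_le_dist_of_mem hcyc
    rw [mem_ball, dist_comm] at ht
    linarith

theorem of_ball {n : ℕ} (hn : 2 ≤ n) {c : ℂ} {r : ℝ} (hr : 0 ≤ r)
    (hsub : ball c r ⊆ N62a1eb23.multibrotSet n) {z : ℂ} (hz : z ∈ (K n c)ᶜ) :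
    r * infDist z (K n c) * ‖deriv (deriv (V n c)) z‖ ≤ 4 := by
  rcases hr.eq_or_lt with h0 | h0
  · rw [← h0, zero_mul, zero_mul]
    norm_num
  · rw [V_eq]
    exact Pool.Agent.X151.MB.bloch hn h0 hsub (not_not.mp hz)

theorem result (n : ℕ) (hn : 2 ≤ n) (c : ℂ) (hc : c ∈ N62a1eb23.multibrotSet n) :
    -- the series of the velocities converges absolutely outside of the filled Julia set, to a
    -- holomorphic function
    (∀ z ∈ (K n c)ᶜ, Summable fun k : ℕ => ‖(deriv (f n c)^[k] z)⁻¹‖) ∧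
    DifferentiableOn ℂ (V n c) (K n c)ᶜ ∧
    -- (1) the distance to the parameters with an attracting cycle
    (∀ z ∈ (K n c)ᶜ, infDist c (hyp n) * infDist z (K n c) * ‖deriv (deriv (V n c)) z‖ ≤ 4) ∧
    -- (2) the distance to the complement of the Multibrot set
    (∀ z ∈ (K n c)ᶜ, infDist c (N62a1eb23.multibrotSet n)ᶜ * infDist z (K n c) *
      ‖deriv (deriv (V n c)) z‖ ≤ 4) ∧
    -- (3) a criterion for the density of hyperbolicity at `c`
    ((∀ L : ℝ, ∃ z ∈ (K n c)ᶜ, L < infDist z (K n c) * ‖deriv (deriv (V n c)) z‖) →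
      c ∈ closure (hyp n)) := by
  have h1 : ∀ z ∈ (K n c)ᶜ, infDist c (hyp n) * infDist z (K n c) *
      ‖deriv (deriv (V n c)) z‖ ≤ 4 := fun z hz => of_ball hn infDist_nonneg (ball_sub hn hc) hz
  refine ⟨?_, ?_, h1, ?_, ?_⟩
  · intro z hz
    have hP : ∀ k, deriv (f n c)^[k] z = Pool.Agent.W746.LD.P n c z k := fun k =>
      (Pool.Agent.W746.LD.hasDerivAt_orb z k).deriv
    simp only [hP]
    exact Pool.Agent.X151.MU.summable_esc hn (not_not.mp hz)
  · intro z hz
    rw [V_eq]
    exact (Pool.Agent.X151.MD.deriv_V hn hc (not_not.mp hz)).1.differentiableWithinAt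
  · intro z hz
    refine of_ball hn infDist_nonneg ?_ hz
    intro x hx
    by_contra hcon
    have h3 : infDist c (N62a1eb23.multibrotSet n)ᶜ ≤ dist c x := infDist_le_dist_of_mem hcon
    rw [mem_ball, dist_comm] at hx
    linarith
  · intro h
    have hne : (hyp n).Nonempty := ⟨0, Pool.Agent.X151.MU.zero_mem_Hy hn⟩
    rw [mem_closure_iff_infDist_zero hne]
    by_contra hcon
    have hpos : 0 < infDist c (hyp n) := lt_of_le_of_ne infDist_nonneg (Ne.symm hcon)
    obtain ⟨z, hz, h2⟩ := h (4 / infDist c (hyp n))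
    have h3 := h1 z hz
    rw [div_lt_iff₀ hpos] at h2
    linarith

end Pool.Agent.Results.MP_af9036_an.BersNorm
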