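import Mathlib
import Pool.Prelude.Def_F_c31e40fa
import Pool.Agent.X151.MC.Mult2

/-!
# The distance to hyperbolicity and the multipliers of the cycles

Let `c` be in the Multibrot set of power `n`, `d` the distance of `c` to the parameters with an
attracting cycle and `z` a periodic point of `f_c` with multiplier `λ = (f_c^p)'(z)`, `|λ| > 1`. The
periodic point and its multiplier can be followed over the whole disc of radius `d` about `c`,
without ever meeting a multiplier of modulus `≤ 1`. Hence all the derivatives of `log λ` with respect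
to the parameter are controlled by `log |λ|` itself: `d ^ k |(log λ)^(k)| ≤ 2 k! log |λ|`, and the
logarithms `log |λ|` at two parameters satisfy Harnack's inequality.
-/

set_option autoImplicit false

open Filter Topology Metric
open scoped Nat

namespace Pool.Agent.Results.MP_af9036_an.MultiplierBound

/-- The map `z ↦ z ^ n + c`. -/
def f (n : ℕ) (c : ℂ) : ℂ → ℂ := fun z => z ^ n + c

/-- The parameters `c` for which `z ^ n + c` has an attracting cycle. -/
def hyp (n : ℕ) : Set ℂ := {c | ∃ m z, N62a1eb23.IsAttractingCycle (f n c) m z}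

/-- The multiplier of a point `z` with `f_c^p(z) = z`. -/
noncomputable def mult (n : ℕ) (c : ℂ) (p : ℕ) (z : ℂ) : ℂ := deriv (f n c)^[p] z

/-- The velocity of the periodic point `z` with respect to the parameter: the derivative of the
solution `x(t)` of `f_t^p(x(t)) = x(t)`, `x(c) = z`, at `t = c`. -/
noncomputable def vel (n : ℕ) (c : ℂ) (p : ℕ) (z : ℂ) : ℂ :=
  deriv (fun t => (f n t)^[p] z) c / (1 - mult n c p z)

theorem mult_eq (n : ℕ) (c : ℂ) (p : ℕ) (z : ℂ) : mult n c p z = Pool.Agent.W746.LD.P n c z p :=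
  (Pool.Agent.W746.LD.hasDerivAt_orb z p).deriv

theorem no_ball {n : ℕ} {c : ℂ} : ∀ t ∈ ball c (infDist c (hyp n)),
    ¬ ∃ m z, N62a1eb23.IsAttractingCycle (fun z => z ^ n + t) m z := by
  intro t ht hcyc
  have h1 : infDist c (hyp n) ≤ dist c t := infDist_le_dist_of_mem hcyc
  rw [mem_ball, dist_comm] at ht
  linarith

theorem vel_eq {n : ℕ} (hn : 2 ≤ n) {c z : ℂ} {p : ℕ} (hp : 1 ≤ p)
    (h0 : 0 < infDist c (hyp n)) (hz : (f n c)^[p] z = z) (i : ℕ) :
    vel n c p ((f n c)^[i] z) = deriv (fun t => Pool.Agent.W746.LD.orb n t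
      (Pool.Agent.W746.LD.orb n c z i) p) c / (1 - Pool.Agent.W746.LD.P n c z p) := by
  have hno := Pool.Agent.X151.MU.no_cycle (n := n) h0
  have hx : ∀ i, Pool.Agent.W746.LD.orb n c z i ≠ 0 :=
    Pool.Agent.X151.MU.per_ne_zero hn hno hp hz
  have e5 : Pool.Agent.W746.LD.P n c (Pool.Agent.W746.LD.orb n c z i) p =
      Pool.Agent.W746.LD.P n c z p := by
    have g1 : Pool.Agent.W746.LD.P n c z (i + p) = Pool.Agent.W746.LD.P n c z i *
        Pool.Agent.W746.LD.P n c (Pool.Agent.W746.LD.orb n c z i) p :=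
      Pool.Agent.W746.LD.P_add _ _ _
    have hz' : Pool.Agent.W746.LD.orb n c z p = z := hz
    have g2 : Pool.Agent.W746.LD.P n c z (p + i) =
        Pool.Agent.W746.LD.P n c z p * Pool.Agent.W746.LD.P n c z i := by
      rw [Pool.Agent.W746.LD.P_add, hz']
    rw [add_comm] at g1
    have g3 : Pool.Agent.W746.LD.P n c z i ≠ 0 :=
      Pool.Agent.W746.LD.P_ne_zero hn fun l _ => hx l
    apply mul_left_cancel₀ g3
    rw [← g1, g2, mul_comm]
  unfold vel
  rw [mult_eq]
  change deriv (fun t => Pool.Agent.W746.LD.orb n t (Pool.Agent.W746.LD.orb n c z i) p) c /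
    (1 - Pool.Agent.W746.LD.P n c (Pool.Agent.W746.LD.orb n c z i) p) = _
  rw [e5]

/-- The multipliers of the cycles and the distance to the parameters with an attracting cycle. -/
theorem result (n : ℕ) (hn : 2 ≤ n) (c : ℂ) (hc : c ∈ N62a1eb23.multibrotSet n) :
    (∀ (p : ℕ) (z : ℂ), 1 ≤ p → (f n c)^[p] z = z →
      -- (1) the periodic point can be followed over the disc of radius `d` without meeting a
      -- multiplier of modulus at most one, and the multipliers satisfy Harnack's inequality
      (∃ X : ℂ → ℂ, X c = z ∧ DifferentiableOn ℂ X (ball c (infDist c (hyp n))) ∧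
        ∀ t ∈ ball c (infDist c (hyp n)), (f n t)^[p] (X t) = X t ∧ 1 < ‖mult n t p (X t)‖ ∧
          (infDist c (hyp n) - ‖t - c‖) * Real.log ‖mult n c p z‖ ≤
            (infDist c (hyp n) + ‖t - c‖) * Real.log ‖mult n t p (X t)‖ ∧
          (infDist c (hyp n) - ‖t - c‖) * Real.log ‖mult n t p (X t)‖ ≤
            (infDist c (hyp n) + ‖t - c‖) * Real.log ‖mult n c p z‖) ∧
      -- (2) all the derivatives of the logarithm of the multiplier along the cycle
      (∀ Y : ℂ → ℂ, ContinuousAt Y c → Y c = z → (∀ᶠ t in 𝓝 c, (f n t)^[p] (Y t) = Y t) →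
        ∀ k : ℕ, infDist c (hyp n) ^ (k + 1) *
          ‖iteratedDeriv k (logDeriv fun t => mult n t p (Y t)) c‖ ≤
            2 * (k + 1) ! * |Real.log ‖mult n c p z‖|) ∧
      -- (3) the first derivative, by the explicit formula
      infDist c (hyp n) * ((n - 1) * ‖∑ i ∈ Finset.range p,
        vel n c p ((f n c)^[i] z) / (f n c)^[i] z‖) ≤ 2 * |Real.log ‖mult n c p z‖|) ∧
    -- (4) a criterion for the density of hyperbolicity at `c`
    ((∀ L : ℝ, ∃ (p : ℕ) (z : ℂ), 1 ≤ p ∧ (f n c)^[p] z = z ∧
      L * |Real.log ‖mult n c p z‖| < ‖∑ i ∈ Finset.range p,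
        vel n c p ((f n c)^[i] z) / (f n c)^[i] z‖) → c ∈ closure (hyp n)) := by
  have hn1 : (1 : ℝ) ≤ n - 1 := by
    have : (2 : ℝ) ≤ n := by exact_mod_cast hn
    linarith
  have h3 : ∀ (p : ℕ) (z : ℂ), 1 ≤ p → (f n c)^[p] z = z →
      infDist c (hyp n) * ((n - 1) * ‖∑ i ∈ Finset.range p,
        vel n c p ((f n c)^[i] z) / (f n c)^[i] z‖) ≤ 2 * |Real.log ‖mult n c p z‖| := by
    intro p z hp hz
    rcases (infDist_nonneg (x := c) (s := hyp n)).eq_or_lt with h | h
    · rw [← h, zero_mul]
      positivity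
    · have h4 := Pool.Agent.X151.MC.explicit hn h no_ball hc hp hz
      simp only [vel_eq hn hp h hz]
      rw [mult_eq]
      refine h4.trans ?_
      have := le_abs_self (Real.log ‖Pool.Agent.W746.LD.P n c z p‖)
      linarith
  refine ⟨?_, ?_⟩
  · intro p z hp hz
    refine ⟨?_, ?_, h3 p z hp hz⟩
    · rcases (infDist_nonneg (x := c) (s := hyp n)).eq_or_lt with h | h
      · refine ⟨fun _ => z, rfl, differentiableOn_const _, ?_⟩
        intro t ht
        rw [← h, ball_zero] at ht
        exact absurd ht (Set.notMem_empty t)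
      · obtain ⟨X, h1, h2, h4⟩ := Pool.Agent.X151.MC.branch_harnack hn h no_ball hc hp hz
        refine ⟨X, h1, h2, ?_⟩
        simp only [mult_eq]
        exact h4
    · intro Y hY hYc hYp k
      rcases (infDist_nonneg (x := c) (s := hyp n)).eq_or_lt with h | h
      · rw [← h, zero_pow (by omega), zero_mul]
        positivity
      · have h4 := Pool.Agent.X151.MC.germ_mult hn h no_ball hc hp hz hY hYc hYp k
        simp only [mult_eq]
        refine h4.trans ?_
        have := le_abs_self (Real.log ‖Pool.Agent.W746.LD.P n c z p‖)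
        gcongr
  · intro h
    have hne : (hyp n).Nonempty := ⟨0, Pool.Agent.X151.MU.zero_mem_Hy hn⟩
    rw [mem_closure_iff_infDist_zero hne]
    by_contra hcon
    have hpos : 0 < infDist c (hyp n) := lt_of_le_of_ne infDist_nonneg (Ne.symm hcon)
    obtain ⟨p, z, hp, hz, h1⟩ := h (2 / infDist c (hyp n))
    have h4 := h3 p z hp hz
    rw [div_mul_eq_mul_div, div_lt_iff₀ hpos] at h1
    have h5 := mul_le_mul_of_nonneg_right hn1 (norm_nonneg (∑ i ∈ Finset.range p,
        vel n c p ((f n c)^[i] z) / (f n c)^[i] z))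
    have h6 := mul_le_mul_of_nonneg_left h5 hpos.le
    linarith

end Pool.Agent.Results.MP_af9036_an.MultiplierBound
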