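import Mathlib
import Pool.Prelude.Def_F_c31e40fa
import Pool.Agent.X151.MC.Unif

/-!
# The distance to hyperbolicity and the cross-ratios of the moving points, in all degrees

For a parameter `c` of the Multibrot set of power `n` we consider the points of the plane which can
be followed when `c` moves: the critical point `0` (velocity `0`), the iterates of the critical value
(velocity `d/dc f_c^N(c)`), the periodic points (velocity given by the implicit function theorem) and
the escaping points `x` (velocity `- ∑_{k ≥ 1} 1 / (f_c^k)'(x)`: the velocity of the point with a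
given Böttcher coordinate). Let `d` be the distance of `c` to the parameters with an attracting
cycle. With one absolute constant, for all degrees, all parameters, all orders and all scales, `d`
times the logarithmic velocity of the cross-ratio of four moving points is bounded by
`C (1 + |log |cross-ratio||)`. For two moving points `x, y ≠ 0` with velocities `v, w` this gives
`n d |v / x - w / y| ≤ C (1 + n |log |x / y||)`.
-/

set_option autoImplicit false

open Filter Topology Metric

namespace Pool.Agent.Results.MP_af9036_an.UniformDegree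

/-- The map `z ↦ z ^ n + c`. -/
def f (n : ℕ) (c : ℂ) : ℂ → ℂ := fun z => z ^ n + c

/-- The parameters `c` for which `z ^ n + c` has an attracting cycle. -/
def hyp (n : ℕ) : Set ℂ := {c | ∃ m z, N62a1eb23.IsAttractingCycle (f n c) m z}

/-- The orbit of `x` escapes to infinity. -/
def Escapes (n : ℕ) (c x : ℂ) : Prop :=
  Tendsto (fun k => (f n c)^[k] x) atTop (Bornology.cobounded ℂ)

/-- `x` is the critical point, an iterate of the critical value, a periodic point, or an escaping
point, and `v` is its velocity with respect to the parameter. -/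
def Moving (n : ℕ) (c x v : ℂ) : Prop :=
  -- the critical point does not move
  (x = 0 ∧ v = 0) ∨
  -- an iterate of the critical value
  (∃ N : ℕ, x = (f n c)^[N] c ∧ v = deriv (fun a => (f n a)^[N] a) c) ∨
  -- a periodic point: `v` is the derivative of the implicit function
  (∃ p : ℕ, 1 ≤ p ∧ (f n c)^[p] x = x ∧
    v = deriv (fun a => (f n a)^[p] x) c / (1 - deriv (f n c)^[p] x)) ∨
  -- an escaping point: `v` is the velocity of the point with the same Böttcher coordinate
  (Escapes n c x ∧ v = -∑' k : ℕ, (deriv (f n c)^[k + 1] x)⁻¹)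

theorem conv {n : ℕ} (hn : 2 ≤ n) {c : ℂ}
    (h0 : 0 < infDist c (hyp n)) {x v : ℂ} (h : Moving n c x v) :
    Pool.Agent.X151.MC.Ma n c x v := by
  have hno := Pool.Agent.X151.MU.no_cycle (n := n) h0
  rcases h with h | ⟨N, h1, h2⟩ | ⟨p, hp, h1, h2⟩ | ⟨h1, h3⟩
  · exact Or.inl (Or.inl h)
  · refine Or.inl (Or.inr (Or.inl ⟨N, h1, ?_⟩))
    rw [h2]
    exact (Pool.Agent.TH363.QI.hasDerivAt_D n c N).deriv
  · refine Or.inr ⟨p, hp, h1, ?_⟩
    have hx : ∀ i, Pool.Agent.W746.LD.orb n c x i ≠ 0 :=
      Pool.Agent.X151.MU.per_ne_zero hn hno hp h1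
    have h3 : deriv (f n c)^[p] x = Pool.Agent.W746.LD.P n c x p :=
      (Pool.Agent.W746.LD.hasDerivAt_orb x p).deriv
    have h4 := (Pool.Agent.X151.MU.hasDerivAt_moving (hasDerivAt_const c x) rfl p fun i _ =>
      Pool.Agent.W746.LD.P_ne_zero hn fun m _ => hx m).deriv
    rw [zero_add] at h4
    rw [h2, h3]
    congr 1
  · refine Or.inl (Or.inr (Or.inr ⟨h1, ?_⟩))
    have h4 : ∀ k, deriv (f n c)^[k] x = Pool.Agent.W746.LD.P n c x k := fun k =>
      (Pool.Agent.W746.LD.hasDerivAt_orb x k).deriv
    have hs := (Pool.Agent.X151.MU.summable_esc hn h1).of_norm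
    unfold Pool.Agent.X151.MU.V
    rw [h3, hs.tsum_eq_zero_add, Pool.Agent.W746.LD.P_zero, inv_one]
    simp only [h4]
    ring

theorem no_ball {n : ℕ} {c : ℂ} : ∀ t ∈ ball c (infDist c (hyp n)),
    ¬ ∃ m z, N62a1eb23.IsAttractingCycle (fun z => z ^ n + t) m z := by
  intro t ht hcyc
  have h1 : infDist c (hyp n) ≤ dist c t := infDist_le_dist_of_mem hcyc
  rw [mem_ball, dist_comm] at ht
  linarith

/-- Velocities and the distance to the parameters with an attracting cycle, with an absolute
constant. -/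
theorem result : ∃ C : ℝ, 0 < C ∧ ∀ n : ℕ, 2 ≤ n → ∀ c ∈ N62a1eb23.multibrotSet n,
    -- the series which define the velocities of the escaping points converge absolutely
    (∀ x, Escapes n c x → Summable fun k : ℕ => ‖(deriv (f n c)^[k + 1] x)⁻¹‖) ∧
    -- (1) the cross-ratios of four moving points
    (∀ x x' y y' z z' w w' : ℂ, Moving n c x x' → Moving n c y y' → Moving n c z z' →
      Moving n c w w' → x ≠ y → x ≠ z → x ≠ w → y ≠ z → y ≠ w → z ≠ w →
      infDist c (hyp n) *
        ‖(x' - z') / (x - z) - (y' - z') / (y - z) - (x' - w') / (x - w) + (y' - w') / (y - w)‖ ≤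
        C * (1 + |Real.log ‖(x - z) * (y - w) / ((y - z) * (x - w))‖|)) ∧
    -- (2) the ratios of the differences of three moving points
    (∀ x x' y y' z z' : ℂ, Moving n c x x' → Moving n c y y' → Moving n c z z' → x ≠ z → y ≠ z →
      infDist c (hyp n) * ‖(x' - z') / (x - z) - (y' - z') / (y - z)‖ ≤
        C * (1 + |Real.log ‖(x - z) / (y - z)‖|)) ∧
    -- (3) two moving points, with the factor `n`
    (∀ x x' y y' : ℂ, Moving n c x x' → Moving n c y y' → x ≠ 0 → y ≠ 0 →
      n * infDist c (hyp n) * ‖x' / x - y' / y‖ ≤ C * (1 + n * |Real.log (‖x‖ / ‖y‖)|)) ∧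
    -- (4) one moving point, with the factor `n`
    (∀ x x' : ℂ, Moving n c x x' →
      n * infDist c (hyp n) * ‖x'‖ ≤ C * ‖x‖ * (1 + n * |Real.log ‖x‖|)) ∧
    -- (5) the derivatives of the critical orbit with respect to the parameter, at all orders
    (∀ N : ℕ, n * infDist c (hyp n) * ‖deriv (fun a => (f n a)^[N] a) c‖ ≤
      C * ‖(f n c)^[N] c‖ * (1 + n * |Real.log ‖(f n c)^[N] c‖|)) ∧
    -- (6) a criterion for the density of hyperbolicity at `c`
    ((∀ K : ℝ, ∃ x x' y y' z z' : ℂ, Moving n c x x' ∧ Moving n c y y' ∧ Moving n c z z' ∧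
      x ≠ z ∧ y ≠ z ∧ K * (1 + |Real.log ‖(x - z) / (y - z)‖|) <
        ‖(x' - z') / (x - z) - (y' - z') / (y - z)‖) → c ∈ closure (hyp n)) := by
  have hC1 := Pool.Agent.TH363.QI.C₁_nonneg
  set C : ℝ := 4 * Pool.Agent.TH363.QI.C₁ + 9 with hC
  have hC0 : 0 < C := by positivity
  have hCb : ∀ a : ℝ, 0 ≤ a → 4 * (Pool.Agent.TH363.QI.C₁ + a) ≤ C * (1 + a) := by
    intro a ha
    rw [hC]
    nlinarith [mul_nonneg hC1 ha]
  refine ⟨C, hC0, ?_⟩
  intro n hn c hc
  have h2 : ∀ x x' y y' z z' : ℂ, Moving n c x x' → Moving n c y y' → Moving n c z z' → x ≠ z →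
      y ≠ z → infDist c (hyp n) * ‖(x' - z') / (x - z) - (y' - z') / (y - z)‖ ≤
        C * (1 + |Real.log ‖(x - z) / (y - z)‖|) := by
    intro x x' y y' z z' hx hy hz hxz hyz
    rcases (infDist_nonneg (x := c) (s := hyp n)).eq_or_lt with h | h
    · rw [← h, zero_mul]
      positivity
    · exact (Pool.Agent.X151.MC.F3_all hn h no_ball hc (conv hn h hx) (conv hn h hy) (conv hn h hz)
        hxz hyz).trans (hCb _ (abs_nonneg _))
  have h4 : ∀ x x' : ℂ, Moving n c x x' →
      n * infDist c (hyp n) * ‖x'‖ ≤ C * ‖x‖ * (1 + n * |Real.log ‖x‖|) := by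
    intro x x' hx
    rcases (infDist_nonneg (x := c) (s := hyp n)).eq_or_lt with h | h
    · rw [← h, mul_zero, zero_mul]
      positivity
    · exact Pool.Agent.X151.MC.single_deg2 hn h no_ball hc (conv hn h hx)
  refine ⟨?_, ?_, h2, ?_, h4, ?_, ?_⟩
  · intro x hx
    have h4 : ∀ k, deriv (f n c)^[k] x = Pool.Agent.W746.LD.P n c x k := fun k =>
      (Pool.Agent.W746.LD.hasDerivAt_orb x k).deriv
    simp only [h4]
    exact (summable_nat_add_iff 1).mpr (Pool.Agent.X151.MU.summable_esc hn hx)
  · intro x x' y y' z z' w w' hx hy hz hw hxy hxz hxw hyz hyw hzw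
    rcases (infDist_nonneg (x := c) (s := hyp n)).eq_or_lt with h | h
    · rw [← h, zero_mul]
      positivity
    · exact (Pool.Agent.X151.MC.F4_all hn h no_ball hc (conv hn h hx) (conv hn h hy) (conv hn h hz)
        (conv hn h hw) hxy hxz hxw hyz hyw hzw).trans (hCb _ (abs_nonneg _))
  · intro x x' y y' hx hy hx0 hy0
    rcases (infDist_nonneg (x := c) (s := hyp n)).eq_or_lt with h | h
    · rw [← h, mul_zero, zero_mul]
      positivity
    · exact (Pool.Agent.X151.MC.pair_deg hn h no_ball hc (conv hn h hx) (conv hn h hy) hx0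
        hy0).trans (hCb _ (by positivity))
  · intro N
    exact h4 _ _ (Or.inr (Or.inl ⟨N, rfl, rfl⟩))
  · intro h
    have hne : (hyp n).Nonempty := ⟨0, Pool.Agent.X151.MU.zero_mem_Hy hn⟩
    rw [mem_closure_iff_infDist_zero hne]
    by_contra hcon
    have hpos : 0 < infDist c (hyp n) := lt_of_le_of_ne infDist_nonneg (Ne.symm hcon)
    obtain ⟨x, x', y, y', z, z', hx, hy, hz, hxz, hyz, h1⟩ := h (C / infDist c (hyp n))
    have h3 := h2 x x' y y' z z' hx hy hz hxz hyz
    rw [div_mul_eq_mul_div, div_lt_iff₀ hpos] at h1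
    linarith

end Pool.Agent.Results.MP_af9036_an.UniformDegree
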